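import Pool.Agent.R253.IB.Fin

set_option autoImplicit false

namespace Pool.Agent.Results.MP_e685ae_an.ReverseInclusion

open Complex Metric Set Filter Topology MeasureTheory
open Pool.Agent.R253.IB

/-- Let `θ` be a nonconstant inner function whose derivative lies in the Nevanlinna class, and let
`J` be the inner factor of `θ'`. Then every point of the boundary spectrum of `θ` lies in the
boundary spectrum of `J`: if `J` continues analytically across a point of the circle, so does `θ`. -/
theorem result (θ J : ℂ → ℂ) (hθ : IsInner θ) (hnc : ¬ ∃ c : ℂ, ∀ z ∈ ball (0 : ℂ) 1, θ z = c)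
    (_hN : Nevanlinna (deriv θ)) (hJ : IsInnerFactor (deriv θ) J) :
    boundarySpectrum θ ⊆ boundarySpectrum J := by
  obtain ⟨hJi, S, O, hS, _, _, hO, hfac⟩ := hJ
  rintro ζ ⟨hζ, hne⟩
  exact ⟨hζ, fun hext => hne (extends_of_inner_extends hθ hnc hJi hS hO hfac hζ hext)⟩

end Pool.Agent.Results.MP_e685ae_an.ReverseInclusion
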